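import Pool.Agent.helper304_ico.Main

set_option autoImplicit false

namespace Pool.Agent.Results.MP_c5a075_co.NoIcosahedron

/-- `X` is a Delone set of type `(r, R)` in three-space. -/
def Delone (X : Set (EuclideanSpace ℝ (Fin 3))) (r R : ℝ) : Prop :=
  0 < r ∧ (∀ x ∈ X, ∀ y ∈ X, x ≠ y → 2 * r ≤ dist x y) ∧
    ∀ y : EuclideanSpace ℝ (Fin 3), ∃ x ∈ X, dist x y ≤ R

/-- `A` is a rotation (determinant one) about `x` preserving the `2R`-cluster of `X` at `x`. -/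
def ClusterRotation (X : Set (EuclideanSpace ℝ (Fin 3))) (R : ℝ) (x : EuclideanSpace ℝ (Fin 3))
    (A : EuclideanSpace ℝ (Fin 3) ≃ₗᵢ[ℝ] EuclideanSpace ℝ (Fin 3)) : Prop :=
  (∀ v : EuclideanSpace ℝ (Fin 3), ‖v‖ ≤ 2 * R → (x + v ∈ X ↔ x + A v ∈ X)) ∧
    LinearMap.det A.toLinearIsometry.toLinearMap = 1

/-- `x` is a point of the crystalline kernel of `X`: the rotations preserving the `2R`-cluster at `x` have orders
1, 2, 3, 4 or 6 only. -/
def KernelPoint (X : Set (EuclideanSpace ℝ (Fin 3))) (R : ℝ) (x : EuclideanSpace ℝ (Fin 3)) : Prop :=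
  x ∈ X ∧ ∀ A, ClusterRotation X R x A → orderOf A ∈ ({1, 2, 3, 4, 6} : Finset ℕ)

/-- `X` contains the twelve vertices `q + a (σ b_i + τ φ b_{i+1})` of a regular icosahedron with centre `q`. -/
def IcosahedronAt (X : Set (EuclideanSpace ℝ (Fin 3))) (q : EuclideanSpace ℝ (Fin 3)) : Prop :=
  ∃ (a : ℝ) (b : OrthonormalBasis (Fin 3) ℝ (EuclideanSpace ℝ (Fin 3))), 0 < a ∧
    ∀ i : Fin 3, ∀ σ τ : ℝ, (σ = 1 ∨ σ = -1) → (τ = 1 ∨ τ = -1) →
      q + a • (σ • b i + (τ * Real.goldenRatio) • b (i + 1)) ∈ X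

/-- There is an absolute constant `k` such that, for every Delone set `X` of `ℝ³` with parameters `r, R` and every point
`y`, either some point of the crystalline kernel of `X` is within `k * R` of `y`, or `X` contains the twelve vertices of a
regular icosahedron with centre within `k * R` of `y`. -/
theorem result : ∃ k : ℝ, ∀ (X : Set (EuclideanSpace ℝ (Fin 3))) (r R : ℝ), Delone X r R →
    ∀ y : EuclideanSpace ℝ (Fin 3),
      (∃ x, KernelPoint X R x ∧ dist x y ≤ k * R) ∨ ∃ q, IcosahedronAt X q ∧ dist q y ≤ k * R := by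
  obtain ⟨k, hk⟩ := Pool.Agent.H304.main_ico
  refine ⟨k, ?_⟩
  rintro X r R ⟨hr, hsep, hcov⟩ y
  rcases hk X r R hr hsep hcov y with ⟨x, hx, hxy, hA⟩ | ⟨q, a, b, ha, hq, h⟩
  · exact Or.inl ⟨x, ⟨hx, fun A hA' => hA A hA'.1 hA'.2⟩, hxy⟩
  · exact Or.inr ⟨q, ⟨a, b, ha, h⟩, hq⟩

end Pool.Agent.Results.MP_c5a075_co.NoIcosahedron
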